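import Pool.Agent.Q6.MordCore

/-!
# MP_cfe824_nt: every `a` with `rk E_a > 0` has infinitely many proper `Q`

`E_b` is 3-isogenous to `E_{-27 b}`, so for `Q = -27 m⁴ n²` (`ρ = m / n`) the curves `E_{a Qⁱ}` have
positive rank as soon as `E_a`, `E_{a ρ²}`, `E_{a ρ⁴}` have. Let `(X₀, Y₀)`, `(X₁, Y₁)` be points of
`Y² + 3 a = 3 X³`, `p = X₀³ - a`, `r = X₁³ - a`, `M₁ = a (p + r)² + 4 p r²`,
`M₂ = a (p + r)² + 4 p² r`. Then `ρ = M₁ / M₂` works, because of the identity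
`p N² + a M₂² = (a + p) M₁²`, `N = a (p + r) (p - 3 r) - 4 p r²`. If the points are close to the origin
at `2` and at a suitable second prime, all the points found have infinite order and `ρ` is not a cube;
when `a / 4` is a cube this uses that `x³ + y³ = 3 z³` has no solution with `z ≠ 0`.
-/

set_option autoImplicit false

namespace Pool.Agent.Results.MP_cfe824_nt.GeometricProgression

open Pool.Agent.Q6.Mord

/-- the curve `E_b : y² = x³ + b` over `ℚ`, for an integer `b` -/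
def mordell (b : ℤ) : WeierstrassCurve.Affine ℚ :=
  { a₁ := 0, a₂ := 0, a₃ := 0, a₄ := 0, a₆ := (b : ℚ) }

/-- `rk E_b > 0` -/
def PosRank (b : ℤ) : Prop := 0 < Module.rank ℤ (mordell b).Point

/-- `(a, Q)` is a proper solution (for nonzero `a`) -/
def Proper (a Q : ℤ) : Prop :=
  (¬ ∃ t : ℤ, Q = t ^ 2) ∧ (¬ ∃ t : ℤ, Q = t ^ 3) ∧ ∀ i : ℕ, PosRank (a * Q ^ i)

theorem Good.posRank {b : ℤ} (h : Good (b : ℚ)) : PosRank b := h.rank

theorem good_all {a m n : ℚ} (hm : m ≠ 0) (hn : n ≠ 0) (h0 : Good a)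
    (h1 : Good (-27 * a * (m / n) ^ 4)) (h2 : Good (-27 * a * (m / n)⁻¹ ^ 4)) (i : ℕ) :
    Good (a * (-27 * m ^ 4 * n ^ 2) ^ i) := by
  have hq : (-27 * m ^ 4 * n ^ 2) ≠ 0 :=
    mul_ne_zero (mul_ne_zero (by norm_num) (pow_ne_zero _ hm)) (pow_ne_zero _ hn)
  obtain ⟨k, j, hj, rfl⟩ : ∃ k j : ℕ, j < 6 ∧ i = 6 * k + j := ⟨i / 6, i % 6, by omega, by omega⟩
  have red : Good (a * (-27 * m ^ 4 * n ^ 2) ^ j) →
      Good (a * (-27 * m ^ 4 * n ^ 2) ^ (6 * k + j)) := by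
    intro h
    have h' := h.scale (pow_ne_zero k hq)
    have e : a * (-27 * m ^ 4 * n ^ 2) ^ j * ((-27 * m ^ 4 * n ^ 2) ^ k) ^ 6
        = a * (-27 * m ^ 4 * n ^ 2) ^ (6 * k + j) := by
      rw [pow_add, mul_comm 6 k, pow_mul]; ring
    rwa [e] at h'
  apply red
  have h3 : (3 : ℚ) ≠ 0 := by norm_num
  have h9 : (9 : ℚ) ≠ 0 := by norm_num
  interval_cases j
  · simpa using h0
  · have h := h1.scale hn
    have e : -27 * a * (m / n) ^ 4 * n ^ 6 = a * (-27 * m ^ 4 * n ^ 2) ^ 1 := by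
      field_simp
    rwa [e] at h
  · have h := h2.iso.scale (pow_ne_zero 2 hm)
    have e : -27 * (-27 * a * (m / n)⁻¹ ^ 4) * (m ^ 2) ^ 6 = a * (-27 * m ^ 4 * n ^ 2) ^ 2 := by
      field_simp
      try ring
    rwa [e] at h
  · have h := h0.iso.scale (mul_ne_zero (mul_ne_zero h3 (pow_ne_zero 2 hm)) hn)
    have e : -27 * a * (3 * m ^ 2 * n) ^ 6 = a * (-27 * m ^ 4 * n ^ 2) ^ 3 := by
      ring
    rwa [e] at h
  · have h := h1.iso.scale (mul_ne_zero (mul_ne_zero h3 (pow_ne_zero 2 hm)) (pow_ne_zero 2 hn))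
    have e : -27 * (-27 * a * (m / n) ^ 4) * (3 * m ^ 2 * n ^ 2) ^ 6
        = a * (-27 * m ^ 4 * n ^ 2) ^ 4 := by
      field_simp
      try ring
    rwa [e] at h
  · have h := h2.scale (mul_ne_zero (mul_ne_zero h9 (pow_ne_zero 4 hm)) hn)
    have e : -27 * a * (m / n)⁻¹ ^ 4 * (9 * m ^ 4 * n) ^ 6 = a * (-27 * m ^ 4 * n ^ 2) ^ 5 := by
      field_simp
      try ring
    rwa [e] at h

/-- For every nonzero integer `a` with `rk E_a > 0` there are infinitely many integers `Q` such that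
`(a, Q)` is a proper solution. -/
theorem result (a : ℤ) (ha : a ≠ 0) (h : PosRank a) : {Q : ℤ | Proper a Q}.Infinite := by
  have haQ : (a : ℚ) ≠ 0 := by exact_mod_cast ha
  obtain ⟨h0, ρ, hρ0, hρ3, h1, h2⟩ := core haQ h
  have hm : (ρ.num : ℚ) ≠ 0 := by exact_mod_cast Rat.num_ne_zero.2 hρ0
  have hn : ((ρ.den : ℤ) : ℚ) ≠ 0 := by exact_mod_cast ρ.den_ne_zero
  have hdiv : ρ = (ρ.num : ℚ) / ((ρ.den : ℤ) : ℚ) := by
    rw [Int.cast_natCast]; exact (Rat.num_div_den ρ).symm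
  rw [hdiv] at h1 h2
  have hall := good_all hm hn h0 h1 h2
  set m : ℤ := ρ.num with hmdef
  set n : ℤ := (ρ.den : ℤ) with hndef
  have hm0 : m ≠ 0 := by exact_mod_cast hm
  have hn0 : n ≠ 0 := by exact_mod_cast hn
  -- the solutions
  let Qt : ℕ → ℤ := fun t => -27 * m ^ 4 * n ^ 2 * ((t : ℤ) + 1) ^ 6
  have hinj : Function.Injective Qt := by
    intro s t hst
    have hc : (-27 * m ^ 4 * n ^ 2 : ℤ) ≠ 0 :=
      mul_ne_zero (mul_ne_zero (by norm_num) (pow_ne_zero _ hm0)) (pow_ne_zero _ hn0)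
    have h6 : ((s : ℤ) + 1) ^ 6 = ((t : ℤ) + 1) ^ 6 := mul_left_cancel₀ hc hst
    have := (pow_left_inj₀ (by positivity) (by positivity) (by norm_num)).1 h6
    omega
  refine Set.infinite_of_injective_forall_mem hinj fun t => ?_
  have ht0 : ((t : ℤ) + 1) ≠ 0 := by positivity
  have ht0' : ((((t : ℤ) + 1 : ℤ)) : ℚ) ≠ 0 := by exact_mod_cast ht0
  have hneg : Qt t < 0 := by
    have : 0 < m ^ 4 * n ^ 2 * ((t : ℤ) + 1) ^ 6 := by positivity
    show -27 * m ^ 4 * n ^ 2 * ((t : ℤ) + 1) ^ 6 < 0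
    nlinarith
  refine ⟨?_, ?_, ?_⟩
  · rintro ⟨s, hs⟩
    have : 0 ≤ s ^ 2 := sq_nonneg s
    omega
  · rintro ⟨s, hs⟩
    apply hρ3
    refine ⟨-(s : ℚ) / 3 / (m * n * ((t : ℤ) + 1 : ℤ) ^ 2), ?_⟩
    have hs' : (-27 * (m : ℚ) ^ 4 * (n : ℚ) ^ 2 * (((t : ℤ) + 1 : ℤ) : ℚ) ^ 6) = (s : ℚ) ^ 3 := by
      exact_mod_cast hs
    rw [hdiv, div_pow, div_pow]
    have e : (-(s : ℚ)) ^ 3 = 27 * (m : ℚ) ^ 4 * (n : ℚ) ^ 2 * (((t : ℤ) + 1 : ℤ) : ℚ) ^ 6 := by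
      linear_combination hs'
    rw [e]
    field_simp
    try ring
  · intro i
    apply Good.posRank
    have hg := (hall i).scale (pow_ne_zero i ht0')
    have e : (a : ℚ) * (-27 * (m : ℚ) ^ 4 * (n : ℚ) ^ 2) ^ i * ((((t : ℤ) + 1 : ℤ) : ℚ) ^ i) ^ 6
        = ((a * (Qt t) ^ i : ℤ) : ℚ) := by
      have hq : ((Qt t : ℤ) : ℚ) = -27 * (m : ℚ) ^ 4 * (n : ℚ) ^ 2 * (((t : ℤ) + 1 : ℤ) : ℚ) ^ 6 := by
        simp only [Qt]; push_cast; rfl
      rw [Int.cast_mul, Int.cast_pow, hq]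
      generalize (((t : ℤ) + 1 : ℤ) : ℚ) = w
      rw [mul_pow _ (w ^ 6) i, ← pow_mul, ← pow_mul, mul_comm i 6]
      ring
    rwa [e] at hg

end Pool.Agent.Results.MP_cfe824_nt.GeometricProgression
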